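import Pool.Agent.helper95.T5.SpecN

/-! Row t5:RE2 (MP_16912e_nt): the congruences for one `z` as one congruence. -/

set_option autoImplicit false

namespace Pool.Agent.T5

open Finset NumberField Pool.Agent.helper3.FT Pool.Agent.helper47.RA

/-- a linear congruence with a unit coefficient -/
theorem RE2_lin (P a b : ℤ) (h : IsCoprime a P) : ∃ x : ℤ, P ∣ a * x + b := by
  obtain ⟨u, v, huv⟩ := h
  refine ⟨-(b * u), b * v, ?_⟩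
  linear_combination (-b) * huv

/-- Chinese remainders for two linear congruences -/
theorem RE2_crt (P Q a b a' b' : ℤ) (hPQ : IsCoprime P Q) (h : IsCoprime a P) (h' : IsCoprime a' Q) :
    ∃ x : ℤ, P ∣ a * x + b ∧ Q ∣ a' * x + b' := by
  obtain ⟨x1, w1, hx1⟩ := RE2_lin P a b h
  obtain ⟨x2, w2, hx2⟩ := RE2_lin Q a' b' h'
  obtain ⟨u, v, huv⟩ := hPQ
  refine ⟨x1 * (v * Q) + x2 * (u * P), ⟨w1 - a * x1 * u + a * x2 * u, ?_⟩,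
    ⟨w2 - a' * x2 * v + a' * x1 * v, ?_⟩⟩
  · linear_combination hx1 + a * x1 * huv
  · linear_combination hx2 + a' * x2 * huv

theorem RE2 : RE2_stmt := by
  intro n k q₁ q₂ r s α β γ hc hq1 hq2 hR c c'
  have hP3 : n ^ 3 * r ∣ (n * r) ^ 3 := ⟨r ^ 2, by ring⟩
  have hPQ : IsCoprime (n ^ 3 * r) (k * s) := IsCoprime.of_isCoprime_of_dvd_left (hc.pow_left (m := 3)) hP3
  have hkP : IsCoprime k (n ^ 3 * r) := (hPQ.of_mul_right_left).symm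
  have hq1P : IsCoprime q₁ (n ^ 3 * r) :=
    IsCoprime.of_isCoprime_of_dvd_right (hq1.pow_right (n := 3)) hP3
  have hnQ : IsCoprime n (k * s) := hc.of_mul_left_left
  have hU1 : IsCoprime (q₁ * k ^ 4) (n ^ 3 * r) := hq1P.mul_left hkP.pow_left
  have hU2 : IsCoprime (q₂ * n ^ 2) (k * s) := hq2.mul_left hnQ.pow_left
  obtain ⟨c₀, h1, h2⟩ := RE2_crt (n ^ 3 * r) (k * s) (q₁ * k ^ 4) (n ^ 3 * c') (q₂ * n ^ 2) (-(k * c))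
    hPQ hU1 hU2
  refine ⟨c₀, fun m g z => ?_⟩
  obtain ⟨a1, ha1⟩ := hR.hα
  obtain ⟨a2, ha2⟩ := hR.hβ
  obtain ⟨a3, ha3⟩ := hR.hγ
  obtain ⟨a4, ha4⟩ := hR.kα
  obtain ⟨a5, ha5⟩ := hR.kβ
  obtain ⟨a6, ha6⟩ := hR.kγ
  obtain ⟨w1, hw1⟩ := h1
  obtain ⟨w2, hw2⟩ := h2
  obtain ⟨w, hw⟩ : ∃ w : ℤ, w = z - (α * m ^ 2 + β * m * g + γ * g ^ 2 + c₀) := ⟨_, rfl⟩
  rw [← hw]
  have e1 : n ^ 3 * r ∣ (q₁ * z * k ^ 4 + q₁ * m * g * k ^ 2 - q₂ * g ^ 2 * n ^ 2 + n ^ 3 * c')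
      - q₁ * k ^ 4 * w := by
    refine ⟨q₁ * k ^ 2 * m * g * a2 + q₁ * k ^ 4 * m ^ 2 * a1 + g ^ 2 * a3 + w1, ?_⟩
    rw [hw]
    linear_combination (q₁ * k ^ 2 * m * g) * ha2 + (q₁ * k ^ 4 * m ^ 2) * ha1 + g ^ 2 * ha3 + hw1
  have e2 : k * s ∣ (q₂ * z * n ^ 2 - q₁ * m ^ 2 - k * c) - q₂ * n ^ 2 * w := by
    refine ⟨m ^ 2 * a4 + q₂ * n ^ 2 * m * g * a5 + q₂ * n ^ 2 * g ^ 2 * a6 + w2, ?_⟩
    rw [hw]
    linear_combination m ^ 2 * ha4 + (q₂ * n ^ 2 * m * g) * ha5 + (q₂ * n ^ 2 * g ^ 2) * ha6 + hw2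
  rw [dvd_iff_dvd_of_dvd_sub e1, dvd_iff_dvd_of_dvd_sub e2]
  constructor
  · intro h
    exact ⟨((dvd_mul_right _ _).trans h).mul_left _, ((dvd_mul_left _ _).trans h).mul_left _⟩
  · rintro ⟨h3, h4⟩
    exact hPQ.mul_dvd (hU1.symm.dvd_of_dvd_mul_left h3) (hU2.symm.dvd_of_dvd_mul_left h4)

end Pool.Agent.T5
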