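import Pool.Agent.helper8.T5.SpecU

/-! Row t5:UIC (MP_16912e_nt): ideals of bounded norm in a class. -/

set_option autoImplicit false

namespace Pool.Agent.T5

open Finset NumberField Pool.Agent.helper3.FT Pool.Agent.helper47.RA

theorem UIC_v {K : Type} [Field K] [NumberField K] (Q : QF K) (hD : Q.D < 0) (x : 𝓞 K) :
    (Q.v₁ x) ^ 2 = (Ideal.absNorm (Ideal.span {x}) : ℝ) := by
  rw [Q.hnorm, ← Q.himag hD, sq]

theorem UIC (hULP : ULP_stmt) : UIC_stmt := by
  intro K _ _ Q hD a₁ ha₁ hmin Y hY F hF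
  classical
  have hA : 0 < Ideal.absNorm a₁ := by
    rw [Nat.pos_iff_ne_zero, Ne, Ideal.absNorm_eq_zero_iff]
    exact ha₁
  have hA' : (0 : ℝ) < Ideal.absNorm a₁ := by exact_mod_cast hA
  have hbar : Q.bar a₁ ≠ ⊥ := by
    intro h
    apply ha₁
    rw [← Q.bar_bar a₁, h]
    unfold QF.bar
    exact Ideal.map_bot
  have hch : ∀ a : Ideal (𝓞 K), ∃ x : 𝓞 K, a ∈ F → a * Q.bar a₁ = Ideal.span {x} := by
    intro a
    by_cases ha : a ∈ F
    · obtain ⟨x, hx⟩ := (hF a ha).2.1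
      exact ⟨x, fun _ => hx⟩
    · exact ⟨0, fun h => absurd h ha⟩
  choose f hf using hch
  have hinj : Set.InjOn f (F : Set (Ideal (𝓞 K))) := by
    intro a ha a' ha' h
    have h1 := hf a ha
    have h2 := hf a' ha'
    rw [h, ← h2] at h1
    exact mul_right_cancel₀ hbar h1
  have hcard : (F.image f).card = F.card := Finset.card_image_of_injOn hinj
  have hmu : ∀ x ∈ Q.bar a₁, x ≠ 0 → ((Ideal.absNorm a₁ : ℝ)) ^ 2 ≤ (Q.v₁ x) ^ 2 := by
    intro x hx hx0
    have h1 : Q.bar a₁ ∣ Ideal.span {x} := by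
      rw [Ideal.dvd_span_singleton]
      exact hx
    obtain ⟨c, hc⟩ := h1
    have hc0 : c ≠ ⊥ := by
      rintro rfl
      rw [Ideal.mul_bot, Ideal.span_singleton_eq_bot] at hc
      exact hx0 hc
    have h2 : (c * Q.bar a₁).IsPrincipal := ⟨x, by rw [mul_comm, ← hc]⟩
    have h3 := hmin c hc0 h2
    rw [UIC_v Q hD, hc, map_mul, QF.absNorm_bar]
    have h4 : (Ideal.absNorm a₁ : ℝ) ≤ (Ideal.absNorm c : ℝ) := by exact_mod_cast h3
    push_cast
    nlinarith
  have hmain := hULP K Q hD (Q.bar a₁) hbar (Y * Ideal.absNorm a₁) ((Ideal.absNorm a₁ : ℝ) ^ 2)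
    (by positivity) (by positivity) hmu (F.image f) (by
      intro x hx
      obtain ⟨a, ha, rfl⟩ := Finset.mem_image.1 hx
      have h1 := hf a ha
      refine ⟨?_, ?_⟩
      · rw [← Ideal.dvd_span_singleton, ← h1]
        exact dvd_mul_left _ _
      · rw [UIC_v Q hD, ← h1, map_mul, QF.absNorm_bar]
        push_cast
        exact mul_le_mul_of_nonneg_right (hF a ha).2.2 hA'.le)
  rw [hcard, QF.absNorm_bar] at hmain
  have e1 : Y * (Ideal.absNorm a₁ : ℝ) / (Ideal.absNorm a₁ * √(-(Q.D : ℝ))) = Y / √(-(Q.D : ℝ)) := by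
    rw [mul_comm Y, mul_div_mul_left _ _ hA'.ne']
  have e2 : Y * (Ideal.absNorm a₁ : ℝ) / (Ideal.absNorm a₁ : ℝ) ^ 2 = Y / Ideal.absNorm a₁ := by
    field_simp
  rw [e1, e2] at hmain
  exact hmain

end Pool.Agent.T5
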